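import Mathlib
import Pool.Agent.V11181.NF.NoFour

/-!
MP_cf16d9 (Q1): the excluded minors of the class of matroids that are regular or have
p-characteristic set `{v >= 3 : v != 6}` are not exactly `U_{2,5}, U_{3,5}, F_7, F_7^*`.
-/

open Finset
open Pool.Agent.V11181.NF (RandomVector entropy)

namespace Pool.Agent.Results.MP_cf16d9_co.NonFanoRefutes

/-- A matroid on `Fin n`, given by its rank function (local form of the rank axioms) -/
structure Mat (n : ℕ) where
  /-- the rank function -/
  r : Finset (Fin n) → ℕ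
  /-- (R1) -/
  r_empty : r ∅ = 0
  /-- (R2) -/
  r_insert : ∀ A x, r A ≤ r (insert x A) ∧ r (insert x A) ≤ r A + 1
  /-- (R3) -/
  r_local : ∀ A x y, r (insert x A) = r A → r (insert y A) = r A →
    r (insert x (insert y A)) = r A

/-- isomorphism of matroids -/
def Iso {m n : ℕ} (M : Mat m) (N : Mat n) : Prop :=
  ∃ φ : Fin m ≃ Fin n, ∀ A : Finset (Fin m), M.r A = N.r (A.map φ.toEmbedding)

/-- `N` is (isomorphic to) a minor of `M`: contract `C` and restrict to the image of `φ`,
`r_N(A) = r_M(φ(A) ∪ C) - r_M(C)` -/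
def IsMinor {m n : ℕ} (N : Mat m) (M : Mat n) : Prop :=
  ∃ (φ : Fin m ↪ Fin n) (C : Finset (Fin n)), (∀ i, φ i ∉ C) ∧
    ∀ A : Finset (Fin m), N.r A + M.r C = M.r (A.map φ ∪ C)

/-- `M` is representable over the field `F` -/
def Representable {n : ℕ} (M : Mat n) (F : Type) [Field F] : Prop :=
  ∃ (d : ℕ) (v : Fin n → (Fin d → F)), ∀ A : Finset (Fin n),
    M.r A = Module.finrank F (Submodule.span F (v '' (A : Set (Fin n))))

/-- regular matroids: representable over every field -/
def Regular {n : ℕ} (M : Mat n) : Prop := ∀ (F : Type) [Field F], Representable M F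

/-- the p-characteristic set: all `v ≥ 2` such that `log v * r_M` is the entropy function of a
discrete random vector -/
def pChar {n : ℕ} (M : Mat n) : Set ℕ :=
  {v | 2 ≤ v ∧ ∃ R : RandomVector n, ∀ A, entropy R A = Real.log v * M.r A}

/-- the class `M'`: regular, or p-characteristic set equal to that of `U_{2,4}` -/
def InClass {n : ℕ} (M : Mat n) : Prop := Regular M ∨ pChar M = {v | 3 ≤ v ∧ v ≠ 6}

/-- excluded minors of `M'` -/
def ExcludedMinor {n : ℕ} (M : Mat n) : Prop :=
  ¬ InClass M ∧ ∀ (m : ℕ) (N : Mat m), m < n → IsMinor N M → InClass N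

/-- the matroid of rank `k` on `Fin n` whose non-spanning sets of size `≥ k` are exactly the
members of `H` (`k`-sets pairwise meeting in at most `k - 2` elements) -/
def paving (n k : ℕ) (hk : 1 ≤ k) (H : Finset (Finset (Fin n))) (hH : ∀ S ∈ H, S.card = k)
    (hHH : ∀ S ∈ H, ∀ T ∈ H, S ≠ T → (S ∩ T).card + 2 ≤ k) : Mat n where
  r A := if A ∈ H then k - 1 else min A.card k
  r_empty := by
    by_cases h : (∅ : Finset (Fin n)) ∈ H
    · have := hH _ h
      rw [card_empty] at this
      omega
    · rw [if_neg h, card_empty]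
      omega
  r_insert := by
    intro A x
    by_cases hx : x ∈ A
    · rw [insert_eq_of_mem hx]
      omega
    have hc := card_insert_of_notMem hx
    by_cases h1 : A ∈ H
    · have h2 := hH _ h1
      by_cases h3 : insert x A ∈ H
      · have := hH _ h3
        omega
      · rw [if_pos h1, if_neg h3]
        omega
    · by_cases h3 : insert x A ∈ H
      · have := hH _ h3
        rw [if_neg h1, if_pos h3]
        omega
      · rw [if_neg h1, if_neg h3]
        omega
  r_local := by
    intro A x y hx hy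
    by_cases hxA : x ∈ A
    · have : insert x (insert y A) = insert y A :=
        insert_eq_of_mem (mem_insert_of_mem hxA)
      rw [this]
      exact hy
    by_cases hyA : y ∈ A
    · have : insert y A = A := insert_eq_of_mem hyA
      rw [this]
      exact hx
    by_cases hxy : x = y
    · subst hxy
      rw [insert_idem]
      exact hx
    have hcx := card_insert_of_notMem hxA
    have hcy := card_insert_of_notMem hyA
    have hxy' : x ∉ insert y A := by
      rw [mem_insert]
      tauto
    have hcxy := card_insert_of_notMem hxy'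
    by_cases h1 : A ∈ H
    · exfalso
      have h2 := hH _ h1
      have h3 : insert x A ∉ H := fun h => by
        have := hH _ h
        omega
      rw [if_pos h1, if_neg h3] at hx
      omega
    · by_cases hlt : A.card < k
      · exfalso
        have h3 : insert x A ∈ H := by
          by_contra h3
          rw [if_neg h1, if_neg h3] at hx
          omega
        have h4 : insert y A ∈ H := by
          by_contra h4
          rw [if_neg h1, if_neg h4] at hy
          omega
        have h5 : insert x A ≠ insert y A := by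
          intro h5
          have : x ∈ insert y A := by
            rw [← h5]
            exact mem_insert_self _ _
          exact hxy' this
        have h6 := hHH _ h3 _ h4 h5
        have h7 : A ⊆ insert x A ∩ insert y A := by
          intro a ha
          rw [mem_inter]
          exact ⟨mem_insert_of_mem ha, mem_insert_of_mem ha⟩
        have h8 := card_le_card h7
        have h9 := hH _ h3
        omega
      · have h3 : insert x (insert y A) ∉ H := fun h => by
          have := hH _ h
          omega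
        rw [if_neg h1, if_neg h3]
        omega

/-- the uniform matroid `U_{2,5}` -/
def U25 : Mat 5 := paving 5 2 (by norm_num) ∅ (by simp) (by simp)

/-- the uniform matroid `U_{3,5}` -/
def U35 : Mat 5 := paving 5 3 (by norm_num) ∅ (by simp) (by simp)

/-- the seven lines of the Fano plane -/
def fanoLines : Finset (Finset (Fin 7)) :=
  {{0, 1, 3}, {0, 2, 4}, {1, 2, 5}, {2, 3, 6}, {1, 4, 6}, {0, 5, 6}, {3, 4, 5}}

/-- six of them -/
def nonFanoLines : Finset (Finset (Fin 7)) :=
  {{0, 1, 3}, {0, 2, 4}, {1, 2, 5}, {2, 3, 6}, {1, 4, 6}, {0, 5, 6}}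

/-- the complements of the lines -/
def fanoCoLines : Finset (Finset (Fin 7)) := fanoLines.image compl

set_option maxRecDepth 100000 in
/-- the Fano matroid -/
def F7 : Mat 7 := paving 7 3 (by norm_num) fanoLines (by decide) (by decide)

set_option maxRecDepth 100000 in
/-- the dual of the Fano matroid -/
def F7dual : Mat 7 := paving 7 4 (by norm_num) fanoCoLines (by decide) (by decide)

set_option maxRecDepth 100000 in
/-- the non-Fano matroid -/
def nonFano : Mat 7 := paving 7 3 (by norm_num) nonFanoLines (by decide) (by decide)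

set_option maxRecDepth 100000 in
theorem fano_card : ∀ B ∈ fanoLines, B.card = 3 := by decide

set_option maxRecDepth 100000 in
theorem nonFano_card : ∀ B ∈ nonFanoLines, B.card = 3 := by decide

set_option maxRecDepth 100000 in
theorem line_through : ∀ c d : Fin 7, c ≠ d → ∃ l ∈ nonFanoLines, c ∈ l ∧ d ∉ l := by decide

set_option maxRecDepth 100000 in
theorem line_avoid : ∀ c d : Fin 7, ∃ l ∈ nonFanoLines, c ∉ l ∧ d ∉ l := by decide

set_option maxRecDepth 100000 in
theorem fano_pair : ∀ a b : Fin 7, a ≠ b → ∃ l ∈ fanoLines, a ∈ l ∧ b ∈ l := by decide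

set_option maxRecDepth 100000 in
theorem no_line34 : ∀ l ∈ nonFanoLines, ¬ (3 ∈ l ∧ 4 ∈ l) := by decide

/-- `F7dual` is the dual of `F7` -/
theorem F7dual_is_dual (A : Finset (Fin 7)) : F7dual.r A + 3 = A.card + F7.r Aᶜ := by
  have hc : Aᶜ.card = 7 - A.card := by rw [card_compl, Fintype.card_fin]
  have hle : A.card ≤ 7 := by
    have := card_le_univ A
    rwa [Fintype.card_fin] at this
  have hmem : A ∈ fanoCoLines ↔ Aᶜ ∈ fanoLines := by
    unfold fanoCoLines
    rw [mem_image]
    constructor
    · rintro ⟨B, hB, rfl⟩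
      rw [compl_compl]
      exact hB
    · intro h
      exact ⟨Aᶜ, h, compl_compl A⟩
  change (if A ∈ fanoCoLines then 4 - 1 else min A.card 4) + 3
    = A.card + (if Aᶜ ∈ fanoLines then 3 - 1 else min Aᶜ.card 3)
  by_cases h : Aᶜ ∈ fanoLines
  · have h3 : Aᶜ.card = 3 := fano_card _ h
    rw [if_pos (hmem.mpr h), if_pos h]
    omega
  · rw [if_neg (fun h' => h (hmem.mp h')), if_neg h, hc]
    omega

theorem nonFano_r (A : Finset (Fin 7)) :
    nonFano.r A = if A ∈ nonFanoLines then 2 else min A.card 3 := rfl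

theorem nonFano_le (A : Finset (Fin 7)) : nonFano.r A ≤ 3 := by
  rw [nonFano_r]
  split_ifs
  · omega
  · omega

theorem isMinor_refl {n : ℕ} (M : Mat n) : IsMinor M M := by
  refine ⟨Function.Embedding.refl _, ∅, by simp, fun A => ?_⟩
  rw [M.r_empty, union_empty, Finset.map_refl, add_zero]

theorem isMinor_trans {k m n : ℕ} {K : Mat k} {N : Mat m} {M : Mat n} (h1 : IsMinor K N)
    (h2 : IsMinor N M) : IsMinor K M := by
  obtain ⟨ψ, D, hψ, hr1⟩ := h1
  obtain ⟨φ, C, hφ, hr2⟩ := h2
  refine ⟨ψ.trans φ, D.map φ ∪ C, ?_, fun A => ?_⟩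
  · intro i hi
    rw [mem_union] at hi
    rcases hi with hi | hi
    · rw [mem_map] at hi
      obtain ⟨j, hj, hij⟩ := hi
      have h3 : j = ψ i := φ.injective hij
      rw [h3] at hj
      exact hψ i hj
    · exact hφ _ hi
  · have h3 := hr2 D
    have h4 := hr2 (A.map ψ ∪ D)
    have h5 := hr1 A
    have h6 : (A.map ψ ∪ D).map φ ∪ C = A.map (ψ.trans φ) ∪ (D.map φ ∪ C) := by
      rw [Finset.map_union, Finset.map_map, Finset.union_assoc]
    rw [h6] at h4
    omega

theorem isMinor_of_iso {m n : ℕ} {N : Mat m} {K : Mat n} (h : Iso N K) : IsMinor K N := by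
  obtain ⟨φ, hφ⟩ := h
  refine ⟨φ.symm.toEmbedding, ∅, by simp, fun A => ?_⟩
  rw [N.r_empty, union_empty, add_zero, hφ, Finset.map_map]
  congr 1
  ext x
  simp

theorem no_U25 : ¬ IsMinor U25 nonFano := by
  rintro ⟨φ, C, hφ, hr⟩
  have hS : (univ.map φ).card = 5 := by simp
  have h1 := hr univ
  have h2 : U25.r univ = 2 := rfl
  have h3 : 5 ≤ (univ.map φ ∪ C).card :=
    le_trans hS.symm.le (card_le_card subset_union_left)
  have h4 : nonFano.r (univ.map φ ∪ C) = 3 := by
    rw [nonFano_r, if_neg (fun h => by have := nonFano_card _ h; omega)]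
    omega
  have h5 : nonFano.r C = 1 := by omega
  have h6 : C.card = 1 := by
    rw [nonFano_r] at h5
    split_ifs at h5 <;> omega
  obtain ⟨c, rfl⟩ := card_eq_one.mp h6
  have hdisj : Disjoint (univ.map φ) {c} := by
    rw [disjoint_singleton_right, mem_map]
    rintro ⟨i, _, hi⟩
    exact hφ i (by rw [hi]; exact mem_singleton_self c)
  have h7 : (univ.map φ ∪ {c}).card = 6 := by
    rw [card_union_of_disjoint hdisj, hS]
    rfl
  have h8 : (univ.map φ ∪ {c})ᶜ.card = 1 := by
    rw [card_compl, h7]
    rfl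
  obtain ⟨d, hd⟩ := card_eq_one.mp h8
  have hcd : c ≠ d := by
    intro h
    have h9 : d ∈ (univ.map φ ∪ {c})ᶜ := by rw [hd]; exact mem_singleton_self d
    rw [mem_compl] at h9
    apply h9
    rw [← h]
    exact mem_union_right _ (mem_singleton_self c)
  obtain ⟨l, hl, hcl, hdl⟩ := line_through c d hcd
  have h10 : l.erase c ⊆ univ.map φ := by
    intro x hx
    rw [mem_erase] at hx
    by_contra h
    have h11 : x ∈ (univ.map φ ∪ {c})ᶜ := by
      rw [mem_compl, mem_union, mem_singleton]
      rintro (h | h)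
      · contradiction
      · exact hx.1 h
    rw [hd, mem_singleton] at h11
    rw [h11] at hx
    exact hdl hx.2
  obtain ⟨A, _, hA⟩ := Finset.subset_map_iff.mp h10
  have h12 := hr A
  have h13 : A.card = 2 := by
    rw [← Finset.card_map φ, ← hA, card_erase_of_mem hcl, nonFano_card l hl]
  have h14 : U25.r A = 2 := by
    change (if A ∈ (∅ : Finset (Finset (Fin 5))) then 2 - 1 else min A.card 2) = 2
    rw [if_neg (notMem_empty _), h13]
    rfl
  have h15 : A.map φ ∪ {c} = l := by
    rw [← hA]
    ext x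
    rw [mem_union, mem_erase, mem_singleton]
    constructor
    · rintro (h | h)
      · exact h.2
      · rw [h]; exact hcl
    · intro h
      by_cases hx : x = c
      · exact Or.inr hx
      · exact Or.inl ⟨hx, h⟩
  rw [h15, h14, h5, nonFano_r, if_pos hl] at h12
  omega

theorem no_U35 : ¬ IsMinor U35 nonFano := by
  rintro ⟨φ, C, hφ, hr⟩
  have hS : (univ.map φ).card = 5 := by simp
  have h1 := hr univ
  have h2 : U35.r univ = 3 := rfl
  have h4 := nonFano_le (univ.map φ ∪ C)
  have h5 : nonFano.r C = 0 := by omega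
  have h6 : C.card = 0 := by
    rw [nonFano_r] at h5
    split_ifs at h5
    omega
  rw [card_eq_zero] at h6
  subst h6
  have h8 : (univ.map φ)ᶜ.card = 2 := by
    rw [card_compl, hS]
    rfl
  obtain ⟨c, d, _, hcd⟩ := card_eq_two.mp h8
  obtain ⟨l, hl, hcl, hdl⟩ := line_avoid c d
  have h10 : l ⊆ univ.map φ := by
    intro x hx
    by_contra h
    have h11 : x ∈ (univ.map φ)ᶜ := by rw [mem_compl]; exact h
    rw [hcd, mem_insert, mem_singleton] at h11
    rcases h11 with rfl | rfl
    · exact hcl hx
    · exact hdl hx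
  obtain ⟨A, _, hA⟩ := Finset.subset_map_iff.mp h10
  have h12 := hr A
  have h13 : A.card = 3 := by
    rw [← Finset.card_map φ, ← hA, nonFano_card l hl]
  have h14 : U35.r A = 3 := by
    change (if A ∈ (∅ : Finset (Finset (Fin 5))) then 3 - 1 else min A.card 3) = 3
    rw [if_neg (notMem_empty _), h13]
    rfl
  rw [union_empty, ← hA, h14, h5, nonFano_r, if_pos hl] at h12
  omega

theorem no_F7 : ¬ IsMinor F7 nonFano := by
  rintro ⟨φ, C, hφ, hr⟩
  have hsurj : Function.Surjective φ := Finite.injective_iff_surjective.mp φ.injective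
  have hC : C = ∅ := by
    by_contra h
    obtain ⟨c, hc⟩ := nonempty_iff_ne_empty.mpr h
    obtain ⟨i, rfl⟩ := hsurj c
    exact hφ i hc
  subst hC
  obtain ⟨a, ha⟩ := hsurj 3
  obtain ⟨b, hb⟩ := hsurj 4
  have hab : a ≠ b := by
    intro h
    rw [h, hb] at ha
    exact absurd ha (by decide)
  obtain ⟨l, hl, hal, hbl⟩ := fano_pair a b hab
  have h1 := hr l
  have h2 : F7.r l = 2 := by
    change (if l ∈ fanoLines then 3 - 1 else min l.card 3) = 2
    rw [if_pos hl]
  have h3 : nonFano.r (∅ : Finset (Fin 7)) = 0 := nonFano.r_empty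
  rw [h2, h3, union_empty, nonFano_r, Finset.card_map, fano_card l hl] at h1
  by_cases h : l.map φ ∈ nonFanoLines
  · apply no_line34 _ h
    constructor
    · rw [← ha]
      exact mem_map_of_mem φ hal
    · rw [← hb]
      exact mem_map_of_mem φ hbl
  · rw [if_neg h] at h1
    omega

set_option maxRecDepth 100000 in
theorem F7dual_univ : F7dual.r univ = 4 := by decide

theorem no_F7dual : ¬ IsMinor F7dual nonFano := by
  rintro ⟨φ, C, hφ, hr⟩
  have h1 := hr univ
  have h2 := nonFano_le (univ.map φ ∪ C)
  rw [F7dual_univ] at h1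
  omega

set_option maxRecDepth 100000 in
theorem nf_single : ∀ i : Fin 7, nonFano.r {i} = 1 := by decide

set_option maxRecDepth 100000 in
theorem nf_pair : ∀ i j : Fin 7, i ≠ j → nonFano.r {i, j} = 2 := by decide

set_option maxRecDepth 100000 in
theorem nf_lines : nonFano.r {0, 1, 3} = 2 ∧ nonFano.r {0, 2, 4} = 2 ∧
    nonFano.r {1, 2, 5} = 2 ∧ nonFano.r {3, 2, 6} = 2 ∧ nonFano.r {4, 1, 6} = 2 ∧
    nonFano.r {5, 0, 6} = 2 ∧ nonFano.r ({0, 1} ∪ {2}) = 3 ∧ nonFano.r {3, 4, 5} = 3 ∧
    nonFano.r univ = 3 := by decide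

/-- no even number is in the p-characteristic set of the non-Fano matroid -/
theorem no_even (v : ℕ) (hv : v ∈ pChar nonFano) : ¬ 2 ∣ v := by
  intro heven
  obtain ⟨h2, R, hR⟩ := hv
  obtain ⟨l1, l2, l3, l4, l5, l6, l7, l8, l9⟩ := nf_lines
  exact Pool.Agent.V11181.NF.no_even R nonFano.r v hR h2 heven nf_single nf_pair
    l1 l2 l3 l4 l5 l6 l7 l8 l9

theorem finrank_span_le_one {d : ℕ} (w : Fin d → ZMod 2) :
    Module.finrank (ZMod 2) (Submodule.span (ZMod 2) {w}) ≤ 1 := by
  by_cases hw : w = 0
  · rw [hw, Submodule.span_zero_singleton, finrank_bot]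
    omega
  · rw [finrank_span_singleton hw]

/-- the non-Fano matroid is not binary -/
theorem not_binary : ¬ Representable nonFano (ZMod 2) := by
  rintro ⟨d, v, hv⟩
  obtain ⟨l1, l2, l3, l4, l5, l6, l7, l8, l9⟩ := nf_lines
  have hsmall : ∀ j k : Fin 7, j ≠ k → v k ∉ Submodule.span (ZMod 2) {v j} := by
    intro j k hjk hmem
    have h1 := hv {j, k}
    rw [nf_pair j k hjk] at h1
    have h2 : Submodule.span (ZMod 2) (v '' (({j, k} : Finset (Fin 7)) : Set (Fin 7)))
        ≤ Submodule.span (ZMod 2) {v j} := by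
      rw [Submodule.span_le]
      rintro _ ⟨i, hi, rfl⟩
      rw [mem_coe, mem_insert, mem_singleton] at hi
      rcases hi with rfl | rfl
      · exact Submodule.mem_span_singleton_self _
      · exact hmem
    have h3 := Submodule.finrank_mono h2
    have h4 := finrank_span_le_one (v j)
    omega
  have hline : ∀ i j k : Fin 7, i ≠ j → j ≠ k → i ≠ k → nonFano.r {i, j, k} = 2 →
      v k = v i + v j := by
    intro i j k hij hjk hik hl
    have h1 := hv {i, j}
    have h2 := hv {i, j, k}
    rw [nf_pair i j hij] at h1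
    rw [hl] at h2
    have h3 : Submodule.span (ZMod 2) (v '' (({i, j} : Finset (Fin 7)) : Set (Fin 7)))
        ≤ Submodule.span (ZMod 2) (v '' (({i, j, k} : Finset (Fin 7)) : Set (Fin 7))) := by
      apply Submodule.span_mono
      apply Set.image_mono
      intro x hx
      simp only [coe_insert, coe_singleton, Set.mem_insert_iff, Set.mem_singleton_iff] at hx ⊢
      tauto
    have h4 := Submodule.eq_of_le_of_finrank_eq h3 (by rw [← h1, ← h2])
    have h5 : v k ∈ Submodule.span (ZMod 2) (v '' (({i, j} : Finset (Fin 7)) : Set (Fin 7))) := by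
      rw [h4]
      apply Submodule.subset_span
      exact ⟨k, by simp, rfl⟩
    rw [coe_insert, coe_singleton, Set.image_pair, Submodule.mem_span_pair] at h5
    obtain ⟨a, b, hab⟩ := h5
    have h01 : ∀ a : ZMod 2, a = 0 ∨ a = 1 := by decide
    rcases h01 a with rfl | rfl
    · exfalso
      apply hsmall j k hjk
      rw [zero_smul, zero_add] at hab
      exact Submodule.mem_span_singleton.mpr ⟨b, hab⟩
    · rcases h01 b with rfl | rfl
      · exfalso
        apply hsmall i k hik
        rw [zero_smul, add_zero] at hab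
        exact Submodule.mem_span_singleton.mpr ⟨1, hab⟩
      · rw [one_smul, one_smul] at hab
        exact hab.symm
  have e3 := hline 0 1 3 (by decide) (by decide) (by decide) l1
  have e4 := hline 0 2 4 (by decide) (by decide) (by decide) l2
  have e5 := hline 1 2 5 (by decide) (by decide) (by decide) l3
  have hz : v 0 + v 0 = 0 := by
    ext x
    exact CharTwo.add_self_eq_zero (v 0 x)
  have e : v 5 = v 3 + v 4 := by
    rw [e3, e4, e5]
    have : v 0 + v 1 + (v 0 + v 2) = (v 0 + v 0) + (v 1 + v 2) := by abel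
    rw [this, hz, zero_add]
  have h1 := hv {3, 4}
  have h2 := hv {3, 4, 5}
  rw [nf_pair 3 4 (by decide)] at h1
  rw [l8] at h2
  have h3 : Submodule.span (ZMod 2) (v '' (({3, 4, 5} : Finset (Fin 7)) : Set (Fin 7)))
      ≤ Submodule.span (ZMod 2) (v '' (({3, 4} : Finset (Fin 7)) : Set (Fin 7))) := by
    rw [Submodule.span_le]
    rintro _ ⟨i, hi, rfl⟩
    rw [mem_coe, mem_insert, mem_insert, mem_singleton] at hi
    have g3 : v 3 ∈ Submodule.span (ZMod 2) (v '' (({3, 4} : Finset (Fin 7)) : Set (Fin 7))) :=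
      Submodule.subset_span ⟨3, by simp, rfl⟩
    have g4 : v 4 ∈ Submodule.span (ZMod 2) (v '' (({3, 4} : Finset (Fin 7)) : Set (Fin 7))) :=
      Submodule.subset_span ⟨4, by simp, rfl⟩
    rcases hi with rfl | rfl | rfl
    · exact g3
    · exact g4
    · rw [e]
      exact Submodule.add_mem _ g3 g4
  have h4 := Submodule.finrank_mono h3
  omega

theorem nonFano_notInClass : ¬ InClass nonFano := by
  rintro (h | h)
  · exact not_binary (h (ZMod 2))
  · have h4 : (4 : ℕ) ∈ pChar nonFano := by
      rw [h]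
      exact ⟨by norm_num, by norm_num⟩
    exact no_even 4 h4 (by norm_num)

/-- The particular statement of Q1 is false: the non-Fano matroid is not in `M'` and has none of
`U_{2,5}, U_{3,5}, F_7, F_7^*` as a minor, so there is an excluded minor of `M'` (a minor of the
non-Fano matroid) that is isomorphic to none of the four. -/
theorem result :
    ((∀ v ∈ pChar nonFano, ¬ 2 ∣ v) ∧ ¬ InClass nonFano ∧ ¬ IsMinor U25 nonFano ∧
      ¬ IsMinor U35 nonFano ∧ ¬ IsMinor F7 nonFano ∧ ¬ IsMinor F7dual nonFano) ∧
    ∃ (n : ℕ) (M : Mat n), ExcludedMinor M ∧ IsMinor M nonFano ∧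
      ¬ Iso M U25 ∧ ¬ Iso M U35 ∧ ¬ Iso M F7 ∧ ¬ Iso M F7dual := by
  classical
  refine ⟨⟨no_even, nonFano_notInClass, no_U25, no_U35, no_F7, no_F7dual⟩, ?_⟩
  have hex : ∃ m, ∃ N : Mat m, IsMinor N nonFano ∧ ¬ InClass N :=
    ⟨7, nonFano, isMinor_refl _, nonFano_notInClass⟩
  obtain ⟨N, hN, hNc⟩ := Nat.find_spec hex
  refine ⟨Nat.find hex, N, ⟨hNc, ?_⟩, hN, ?_, ?_, ?_, ?_⟩
  · intro m K hm hK
    by_contra h
    exact Nat.find_min hex hm ⟨K, isMinor_trans hK hN, h⟩
  · intro h
    exact no_U25 (isMinor_trans (isMinor_of_iso h) hN)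
  · intro h
    exact no_U35 (isMinor_trans (isMinor_of_iso h) hN)
  · intro h
    exact no_F7 (isMinor_trans (isMinor_of_iso h) hN)
  · intro h
    exact no_F7dual (isMinor_trans (isMinor_of_iso h) hN)

end Pool.Agent.Results.MP_cf16d9_co.NonFanoRefutes
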